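import Pool.Agent.H90.VT.SGBa

/-!
# Summation by parts (theorem (V), row SGB)
-/

set_option autoImplicit false

open MeasureTheory Set

namespace Pool.Agent.H90.VT.SGB

theorem swap (n : ℕ) (F : ℕ → ℕ → ℝ) :
    ∑ d ∈ Finset.Icc 1 n, ∑ x ∈ d.divisorsAntidiagonal, F x.1 x.2 =
      ∑ b ∈ Finset.Icc 1 n, ∑ a ∈ Finset.Icc 1 (n / b), F b a := by
  rw [Finset.sum_sigma', Finset.sum_sigma']
  refine Finset.sum_bij' (fun s _ => ⟨s.2.1, s.2.2⟩) (fun t _ => ⟨t.1 * t.2, (t.1, t.2)⟩)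
    ?_ ?_ ?_ ?_ ?_
  · rintro ⟨d, b, a⟩ h
    simp only [Finset.mem_sigma, Finset.mem_Icc, Nat.mem_divisorsAntidiagonal] at h ⊢
    obtain ⟨⟨h1, h2⟩, h3, h4⟩ := h
    have hb : 0 < b := Nat.pos_of_ne_zero (by rintro rfl; simp at h3; omega)
    have ha : 0 < a := Nat.pos_of_ne_zero (by rintro rfl; simp at h3; omega)
    refine ⟨⟨hb, ?_⟩, ha, ?_⟩
    · exact (Nat.le_mul_of_pos_right b ha).trans (h3.le.trans h2)
    · rw [Nat.le_div_iff_mul_le hb, mul_comm]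
      exact h3.le.trans h2
  · rintro ⟨b, a⟩ h
    simp only [Finset.mem_sigma, Finset.mem_Icc, Nat.mem_divisorsAntidiagonal] at h ⊢
    obtain ⟨⟨h1, h2⟩, h3, h4⟩ := h
    rw [Nat.le_div_iff_mul_le h1, mul_comm] at h4
    have h5 : 0 < b * a := Nat.mul_pos h1 h3
    refine ⟨⟨h5, h4⟩, trivial, h5.ne'⟩
  · rintro ⟨d, b, a⟩ h
    simp only [Finset.mem_sigma, Finset.mem_Icc, Nat.mem_divisorsAntidiagonal] at h
    obtain ⟨-, h3, -⟩ := h
    subst h3
    rfl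
  · rintro ⟨b, a⟩ h
    rfl
  · rintro ⟨d, b, a⟩ h
    rfl

theorem sum_zero_one (c : ℕ → ℝ) (h0 : c 0 = 0) (N : ℕ) :
    ∑ k ∈ Finset.Icc 0 N, c k = ∑ k ∈ Finset.Icc 1 N, c k := by
  symm
  refine Finset.sum_subset (Finset.Icc_subset_Icc_left (Nat.zero_le 1)) ?_
  intro k hk hk'
  rw [Finset.mem_Icc] at hk hk'
  have : k = 0 := by omega
  rw [this, h0]

/-- the partial sums -/
noncomputable def G (g : ℕ → ℝ) (t : ℝ) : ℝ := ∑ n ∈ Finset.Icc 1 ⌊t⌋₊, g n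

theorem G_meas (g : ℕ → ℝ) : Measurable (G g) := by
  have h : G g = (fun N : ℕ => ∑ n ∈ Finset.Icc 1 N, g n) ∘ (fun t : ℝ => ⌊t⌋₊) := rfl
  rw [h]
  exact (measurable_of_countable _).comp Nat.measurable_floor

/-- one factor -/
theorem abel_one {β x : ℝ} (h0 : 0 < β) (h1 : β < 1) (g : ℕ → ℝ) (hg : g 0 = 0) {m : ℕ}
    (hm : 1 ≤ m) (hmx : (m : ℝ) ≤ x) :
    ∑ d ∈ Finset.Icc 1 ⌊x / m⌋₊, ((m : ℝ) * d) ^ (-β) * (1 - (m : ℝ) * d / x) * g d =
      ∫ t in Ioc 1 (x / m), (β * (m : ℝ) ^ (-β) * t ^ (-β - 1) +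
        (1 - β) * ((m : ℝ) ^ (1 - β) / x) * t ^ (-β)) * G g t := by
  have hm0 : (0 : ℝ) < m := by exact_mod_cast hm
  have hx0 : 0 < x := by linarith
  have hb1 : 1 ≤ x / m := by
    rw [one_le_div hm0]
    exact hmx
  set f : ℝ → ℝ := fun t => (m : ℝ) ^ (-β) * t ^ (-β) - (m : ℝ) ^ (1 - β) / x * t ^ (1 - β)
    with hf
  have hder : ∀ t : ℝ, 0 < t → HasDerivAt f (-(β * (m : ℝ) ^ (-β) * t ^ (-β - 1) +
        (1 - β) * ((m : ℝ) ^ (1 - β) / x) * t ^ (-β))) t := by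
    intro t ht
    have e1 := (Real.hasDerivAt_rpow_const (x := t) (p := -β) (Or.inl ht.ne')).const_mul
      ((m : ℝ) ^ (-β))
    have e2 := (Real.hasDerivAt_rpow_const (x := t) (p := 1 - β) (Or.inl ht.ne')).const_mul
      ((m : ℝ) ^ (1 - β) / x)
    have e3 := e1.sub e2
    refine e3.congr_deriv ?_
    rw [show 1 - β - 1 = -β by ring]
    ring
  have hfb : f (x / m) = 0 := by
    rw [hf]
    simp only
    rw [Real.div_rpow hx0.le hm0.le, Real.div_rpow hx0.le hm0.le]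
    have e1 : (m : ℝ) ^ (-β) ≠ 0 := (Real.rpow_pos_of_pos hm0 _).ne'
    have e2 : (m : ℝ) ^ (1 - β) ≠ 0 := (Real.rpow_pos_of_pos hm0 _).ne'
    have e3 : x ^ (1 - β) = x ^ (-β) * x := by
      rw [← Real.rpow_add_one hx0.ne']
      congr 1
      ring
    rw [e3]
    field_simp
    ring
  have hab := sum_mul_eq_sub_integral_mul₀ (c := g) (f := f) hg (x / m)
    (fun t ht => (hder t (by have := ht.1; linarith)).differentiableAt) (by
      refine (ContinuousOn.integrableOn_Icc (f := fun t => -(β * (m : ℝ) ^ (-β) * t ^ (-β - 1) +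
        (1 - β) * ((m : ℝ) ^ (1 - β) / x) * t ^ (-β))) ?_).congr_fun ?_ measurableSet_Icc
      · intro t ht
        have ht0 : t ≠ 0 := by have := ht.1; linarith
        refine ContinuousAt.continuousWithinAt ?_
        refine ContinuousAt.neg (ContinuousAt.add ?_ ?_)
        · exact continuousAt_const.mul (Real.continuousAt_rpow_const _ _ (Or.inl ht0))
        · exact continuousAt_const.mul (Real.continuousAt_rpow_const _ _ (Or.inl ht0))
      · intro t ht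
        exact (hder t (by have := ht.1; linarith)).deriv.symm)
  rw [hfb, zero_mul, zero_sub, sum_zero_one _ (by rw [hg, mul_zero])] at hab
  have hL : ∑ d ∈ Finset.Icc 1 ⌊x / m⌋₊, ((m : ℝ) * d) ^ (-β) * (1 - (m : ℝ) * d / x) * g d =
      ∑ k ∈ Finset.Icc 1 ⌊x / m⌋₊, f k * g k := by
    refine Finset.sum_congr rfl fun d hd => ?_
    rw [Finset.mem_Icc] at hd
    have hd0 : (0 : ℝ) < d := by exact_mod_cast hd.1
    rw [hf]
    simp only
    have e1 : (d : ℝ) ^ (1 - β) = (d : ℝ) ^ (-β) * d := by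
      rw [← Real.rpow_add_one hd0.ne']
      congr 1
      ring
    have e2 : (m : ℝ) ^ (1 - β) = (m : ℝ) ^ (-β) * m := by
      rw [← Real.rpow_add_one hm0.ne']
      congr 1
      ring
    rw [Real.mul_rpow hm0.le hd0.le, e1, e2]
    ring
  rw [hL, hab, ← integral_neg]
  refine setIntegral_congr_fun measurableSet_Ioc fun t ht => ?_
  have ht0 : 0 < t := by have := ht.1; linarith
  show -(deriv f t * ∑ k ∈ Finset.Icc 0 ⌊t⌋₊, g k) = _
  rw [(hder t ht0).deriv, sum_zero_one g hg]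
  unfold G
  ring

theorem G_bound {g : ℕ → ℝ} {A : ℝ}
    (hG : ∀ N : ℕ, |∑ n ∈ Finset.Icc 1 N, g n| ≤ A * (N : ℝ) ^ (3 / 4 : ℝ)) (hA : 0 ≤ A) {t : ℝ}
    (ht : 0 ≤ t) : |G g t| ≤ A * t ^ (3 / 4 : ℝ) := by
  refine (hG ⌊t⌋₊).trans ?_
  exact mul_le_mul_of_nonneg_left (Real.rpow_le_rpow (Nat.cast_nonneg _) (Nat.floor_le ht)
    (by norm_num)) hA

theorem int_rpow {g : ℕ → ℝ} {A : ℝ}
    (hG : ∀ N : ℕ, |∑ n ∈ Finset.Icc 1 N, g n| ≤ A * (N : ℝ) ^ (3 / 4 : ℝ)) (hA : 0 ≤ A)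
    {r : ℝ} (hr : 3 / 4 + r < -1) : IntegrableOn (fun t => G g t * t ^ r) (Ioi 1) := by
  have h1 : IntegrableOn (fun t : ℝ => A * t ^ (3 / 4 + r)) (Ioi 1) :=
    (integrableOn_Ioi_rpow_of_lt hr one_pos).const_mul A
  refine Integrable.mono' h1 ?_ ?_
  · exact ((G_meas g).mul (measurable_id.pow_const r)).aestronglyMeasurable
  · filter_upwards [ae_restrict_mem measurableSet_Ioi] with t ht
    have ht1 : (1 : ℝ) < t := ht
    have ht0 : 0 < t := by linarith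
    rw [norm_mul, Real.norm_eq_abs, Real.norm_of_nonneg (Real.rpow_nonneg ht0.le _),
      Real.rpow_add ht0, ← mul_assoc]
    exact mul_le_mul_of_nonneg_right (G_bound hG hA ht0.le) (Real.rpow_nonneg ht0.le _)

/-- the kernel of one factor -/
noncomputable def km (β x : ℝ) (m : ℕ) (t : ℝ) : ℝ :=
  β * (m : ℝ) ^ (-β) * t ^ (-β - 1) + (1 - β) * ((m : ℝ) ^ (1 - β) / x) * t ^ (-β)

theorem km_int {β x : ℝ} {g : ℕ → ℝ} {A : ℝ}
    (hG : ∀ N : ℕ, |∑ n ∈ Finset.Icc 1 N, g n| ≤ A * (N : ℝ) ^ (3 / 4 : ℝ)) (hA : 0 ≤ A) (m : ℕ) :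
    IntegrableOn (fun t => km β x m t * G g t) (Ioc 1 (x / m)) := by
  have hk : ContinuousOn (km β x m) (Icc 1 (x / m)) := by
    intro t ht
    have ht0 : t ≠ 0 := by have := ht.1; linarith
    refine ContinuousAt.continuousWithinAt ?_
    unfold km
    refine ContinuousAt.add ?_ ?_
    · exact continuousAt_const.mul (Real.continuousAt_rpow_const _ _ (Or.inl ht0))
    · exact continuousAt_const.mul (Real.continuousAt_rpow_const _ _ (Or.inl ht0))
  have h1 : IntegrableOn (km β x m) (Ioc 1 (x / m)) :=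
    (hk.integrableOn_Icc).mono_set Ioc_subset_Icc_self
  refine Integrable.mul_bdd (c := A * (x / m) ^ (3 / 4 : ℝ)) h1
    (G_meas g).aestronglyMeasurable ?_
  filter_upwards [ae_restrict_mem measurableSet_Ioc] with t ht
  have ht0 : 0 ≤ t := by have := ht.1; linarith
  rw [Real.norm_eq_abs]
  exact (G_bound hG hA ht0).trans (mul_le_mul_of_nonneg_left
    (Real.rpow_le_rpow ht0 ht.2 (by norm_num)) hA)

/-- summation over all factors -/
theorem abel_all {β x : ℝ} (h0 : 0 < β) (h1 : β < 1) (hx : 1 ≤ x) {g : ℕ → ℝ} (hg : g 0 = 0)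
    {A : ℝ} (hG : ∀ N : ℕ, |∑ n ∈ Finset.Icc 1 N, g n| ≤ A * (N : ℝ) ^ (3 / 4 : ℝ))
    (hA : 0 ≤ A) :
    IntegrableOn (fun t => G g t * (t ^ (-β - 1) * W β (x / t))) (Ioi 1) ∧
    ∑ m ∈ Finset.Icc 1 ⌊x⌋₊, ∑ d ∈ Finset.Icc 1 (⌊x⌋₊ / m),
      ((m : ℝ) * d) ^ (-β) * (1 - (m : ℝ) * d / x) * g d =
      ∫ t in Ioi 1, G g t * (t ^ (-β - 1) * W β (x / t)) := by
  have hx0 : 0 < x := by linarith
  have hmx : ∀ m ∈ Finset.Icc 1 ⌊x⌋₊, 1 ≤ m ∧ (0 : ℝ) < m ∧ (m : ℝ) ≤ x := by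
    intro m hm
    rw [Finset.mem_Icc] at hm
    exact ⟨hm.1, by exact_mod_cast hm.1, (Nat.le_floor_iff hx0.le).1 hm.2⟩
  have hind : ∀ m : ℕ, IntegrableOn ((Ioc 1 (x / m)).indicator (fun t => km β x m t * G g t))
      (Ioi 1) := by
    intro m
    rw [IntegrableOn, integrable_indicator_iff measurableSet_Ioc, IntegrableOn,
      Measure.restrict_restrict measurableSet_Ioc]
    exact (km_int hG hA m).mono_set inter_subset_left
  have hpt : ∀ t ∈ Ioi (1 : ℝ), ∑ m ∈ Finset.Icc 1 ⌊x⌋₊,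
      (Ioc 1 (x / m)).indicator (fun t => km β x m t * G g t) t =
      G g t * (t ^ (-β - 1) * W β (x / t)) := by
    intro t ht
    have ht1 : (1 : ℝ) < t := ht
    have ht0 : 0 < t := by linarith
    have e1 : ∀ m ∈ Finset.Icc 1 ⌊x⌋₊,
        (Ioc 1 (x / m)).indicator (fun t => km β x m t * G g t) t =
          if m ≤ ⌊x / t⌋₊ then km β x m t * G g t else 0 := by
      intro m hm
      obtain ⟨m1, m2, m3⟩ := hmx m hm
      have e2 : t ∈ Ioc 1 (x / m) ↔ m ≤ ⌊x / t⌋₊ := by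
        rw [Nat.le_floor_iff (by positivity), mem_Ioc, le_div_iff₀ m2, le_div_iff₀ ht0, mul_comm]
        exact ⟨fun h => h.2, fun h => ⟨ht1, h⟩⟩
      by_cases h : m ≤ ⌊x / t⌋₊
      · rw [indicator_of_mem (e2.2 h), if_pos h]
      · rw [indicator_of_notMem (fun h2 => h (e2.1 h2)), if_neg h]
    rw [Finset.sum_congr rfl e1, ← Finset.sum_filter]
    have e3 : (Finset.Icc 1 ⌊x⌋₊).filter (fun m => m ≤ ⌊x / t⌋₊) = Finset.Icc 1 ⌊x / t⌋₊ := by
      ext m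
      rw [Finset.mem_filter, Finset.mem_Icc, Finset.mem_Icc]
      constructor
      · rintro ⟨⟨a1, a2⟩, a3⟩
        exact ⟨a1, a3⟩
      · rintro ⟨a1, a3⟩
        refine ⟨⟨a1, a3.trans (Nat.floor_le_floor ?_)⟩, a3⟩
        rw [div_le_iff₀ ht0]
        nlinarith
    rw [e3]
    unfold W s1 s2 km
    rw [Finset.mul_sum, Finset.sum_div, Finset.mul_sum, ← Finset.sum_add_distrib, Finset.mul_sum,
      Finset.mul_sum]
    refine Finset.sum_congr rfl fun m _ => ?_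
    have e4 : t ^ (-β) = t ^ (-β - 1) * t := by
      rw [← Real.rpow_add_one ht0.ne']
      congr 1
      ring
    rw [e4]
    field_simp
  have hsumint : IntegrableOn (fun t => ∑ m ∈ Finset.Icc 1 ⌊x⌋₊,
      (Ioc 1 (x / m)).indicator (fun t => km β x m t * G g t) t) (Ioi 1) :=
    integrable_finsetSum _ fun m _ => hind m
  refine ⟨hsumint.congr_fun hpt measurableSet_Ioi, ?_⟩
  rw [← setIntegral_congr_fun measurableSet_Ioi hpt, integral_finsetSum _ fun m _ => hind m]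
  refine Finset.sum_congr rfl fun m hm => ?_
  obtain ⟨m1, m2, m3⟩ := hmx m hm
  rw [← Nat.floor_div_natCast, abel_one h0 h1 g hg m1 m3,
    setIntegral_indicator measurableSet_Ioc]
  have e1 : Ioi 1 ∩ Ioc 1 (x / m) = Ioc 1 (x / m) := by
    apply inter_eq_right.2
    intro t ht
    exact ht.1
  rw [e1]
  rfl

end Pool.Agent.H90.VT.SGB
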