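import Pool.Agent.H47.VT.Targets6
import Pool.Agent.H90.VT.SGBb

/-!
# Theorem (V), row SGB: lower bound at `1` from a non-negative value at `β`
-/

set_option autoImplicit false

open MeasureTheory Set

namespace Pool.Agent.H90.VT.SGB

open Pool.Agent.H47.VT

/-- the error term -/
private theorem err {β x A C : ℝ} (h0 : 7 / 8 ≤ β) (h1 : β < 1) (hx : 1 ≤ x) (hA : 0 ≤ A)
    (hC : 0 ≤ C) {H : ℝ → ℝ} (hH : IntegrableOn H (Ioi 1))
    (hb1 : ∀ t : ℝ, 1 < t → t ≤ x → |H t| ≤ 2 * A * x ^ (-β) * t ^ (-(1 / 4) : ℝ))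
    (hb2 : ∀ t : ℝ, x < t → |H t| ≤ A * C * t ^ (-(1 / 4) - β : ℝ)) :
    |∫ t in Ioi 1, H t| ≤ A * (8 / 3 + 8 * C) * x ^ (3 / 4 - β) := by
  have hx0 : 0 < x := by linarith
  have e1 : Ioi (1 : ℝ) = Ioc 1 x ∪ Ioi x := (Ioc_union_Ioi_eq_Ioi hx).symm
  have hd : Disjoint (Ioc (1 : ℝ) x) (Ioi x) := by
    rw [Set.disjoint_left]
    intro t h2 h3
    exact absurd h2.2 (not_le.2 h3)
  have hi1 : IntegrableOn H (Ioc 1 x) := hH.mono_set (fun t ht => ht.1)
  have hi2 : IntegrableOn H (Ioi x) := hH.mono_set (Ioi_subset_Ioi hx)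
  rw [e1, setIntegral_union hd measurableSet_Ioi hi1 hi2]
  refine (abs_add_le _ _).trans ?_
  have hA1 : |∫ t in Ioc 1 x, H t| ≤ 2 * A * x ^ (-β) * ((4 / 3) * x ^ (3 / 4 : ℝ)) := by
    have hint : IntegrableOn (fun t : ℝ => 2 * A * x ^ (-β) * t ^ (-(1 / 4) : ℝ)) (Ioc 1 x) := by
      refine Integrable.const_mul ?_ _
      have := (intervalIntegral.intervalIntegrable_rpow' (a := 1) (b := x)
        (by norm_num : (-1 : ℝ) < -(1 / 4))).1
      exact this
    have h2 : ‖∫ t in Ioc 1 x, H t‖ ≤ ∫ t in Ioc 1 x, 2 * A * x ^ (-β) * t ^ (-(1 / 4) : ℝ) := by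
      refine norm_integral_le_of_norm_le hint ?_
      filter_upwards [ae_restrict_mem measurableSet_Ioc] with t ht
      exact hb1 t ht.1 ht.2
    rw [Real.norm_eq_abs] at h2
    refine h2.trans ?_
    rw [integral_const_mul, ← intervalIntegral.integral_of_le hx,
      integral_rpow (Or.inl (by norm_num))]
    have e2 : (-(1 / 4) + 1 : ℝ) = 3 / 4 := by norm_num
    rw [e2, Real.one_rpow]
    refine mul_le_mul_of_nonneg_left ?_ (by positivity)
    rw [div_le_iff₀ (by norm_num)]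
    have : 0 ≤ x ^ (3 / 4 : ℝ) := by positivity
    linarith
  have hA2 : |∫ t in Ioi x, H t| ≤ A * C * (8 * x ^ (3 / 4 - β)) := by
    have hlt : -(1 / 4) - β < -1 := by linarith
    have hint : IntegrableOn (fun t : ℝ => A * C * t ^ (-(1 / 4) - β : ℝ)) (Ioi x) :=
      (integrableOn_Ioi_rpow_of_lt hlt hx0).const_mul _
    have h2 : ‖∫ t in Ioi x, H t‖ ≤ ∫ t in Ioi x, A * C * t ^ (-(1 / 4) - β : ℝ) := by
      refine norm_integral_le_of_norm_le hint ?_
      filter_upwards [ae_restrict_mem measurableSet_Ioi] with t ht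
      exact hb2 t ht
    rw [Real.norm_eq_abs] at h2
    refine h2.trans ?_
    rw [integral_const_mul, integral_Ioi_rpow_of_lt hlt hx0]
    refine mul_le_mul_of_nonneg_left ?_ (by positivity)
    have e2 : -(1 / 4) - β + 1 = 3 / 4 - β := by ring
    rw [e2]
    have e3 : -x ^ (3 / 4 - β) / (3 / 4 - β) = x ^ (3 / 4 - β) / (β - 3 / 4) := by
      rw [← neg_sub β (3 / 4), div_neg, neg_div, neg_neg]
    rw [e3, div_le_iff₀ (by linarith)]
    have : 0 ≤ x ^ (3 / 4 - β) := by positivity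
    nlinarith
  have e4 : x ^ (-β) * x ^ (3 / 4 : ℝ) = x ^ (3 / 4 - β) := by
    rw [← Real.rpow_add hx0]
    congr 1
    ring
  calc |∫ t in Ioc 1 x, H t| + |∫ t in Ioi x, H t|
      ≤ 2 * A * x ^ (-β) * ((4 / 3) * x ^ (3 / 4 : ℝ)) + A * C * (8 * x ^ (3 / 4 - β)) :=
        add_le_add hA1 hA2
    _ = A * (8 / 3 + 8 * C) * x ^ (3 / 4 - β) := by
        rw [← e4]
        ring

/-- (SGB) lower bound at `1` from a non-negative value at `β`. -/
theorem pf_SGB : T_SGB := by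
  intro β hβ hβ1
  have h0 : 0 < β := by linarith
  have hp : 0 < 1 - β := by linarith
  have hq : 0 < 2 - β := by linarith
  obtain ⟨κ, hκ, hW⟩ := W_asym h0 hβ1
  obtain ⟨c, hc⟩ : ∃ c : ℝ, c = 1 / ((1 - β) * (2 - β)) := ⟨_, rfl⟩
  have hc0 : 0 < c := by rw [hc]; positivity
  rw [← hc] at hW
  obtain ⟨C, hC⟩ : ∃ C : ℝ, C = c + |β * κ| := ⟨_, rfl⟩
  have hC0 : 0 ≤ C := by rw [hC]; positivity
  obtain ⟨C', hC'⟩ : ∃ C' : ℝ, C' = 8 / 3 + 8 * C := ⟨_, rfl⟩
  have hC'1 : 1 ≤ C' := by rw [hC']; linarith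
  refine ⟨1 / (4 * c) * (4 * C') ^ (-(8 * (1 - β))), by positivity, ?_⟩
  intro g A hA hg g1 hr hPf
  have hA0 : 0 ≤ A := by linarith
  -- the choice of x
  obtain ⟨x, hx⟩ : ∃ x : ℝ, x = (4 * C' * A) ^ (8 : ℝ) := ⟨_, rfl⟩
  have hCA : 4 ≤ 4 * C' * A := by nlinarith
  have hCA0 : 0 < 4 * C' * A := by linarith
  have hx2 : 2 ≤ x := by
    rw [hx]
    calc (2 : ℝ) ≤ 4 * C' * A := by linarith
      _ = (4 * C' * A) ^ (1 : ℝ) := (Real.rpow_one _).symm
      _ ≤ (4 * C' * A) ^ (8 : ℝ) :=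
          Real.rpow_le_rpow_of_exponent_le (by linarith) (by norm_num)
  have hx1 : 1 ≤ x := by linarith
  have hx0 : 0 < x := by linarith
  have hg0 : g 0 = 0 := ArithmeticFunction.map_zero
  obtain ⟨hint, hsum⟩ := abel_all h0 hβ1 hx1 hg0 hg hA0
  -- the lower bound of the sum
  have hlow : 1 / 2 ≤ ∑ m ∈ Finset.Icc 1 ⌊x⌋₊, ∑ d ∈ Finset.Icc 1 (⌊x⌋₊ / m),
      ((m : ℝ) * d) ^ (-β) * (1 - (m : ℝ) * d / x) * g d := by
    rw [← swap ⌊x⌋₊ (fun m d => ((m : ℝ) * d) ^ (-β) * (1 - (m : ℝ) * d / x) * g d)]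
    have h1 : ∀ n ∈ Finset.Icc 1 ⌊x⌋₊, ∑ p ∈ n.divisorsAntidiagonal,
        ((p.1 : ℝ) * p.2) ^ (-β) * (1 - (p.1 : ℝ) * p.2 / x) * g p.2 =
        (n : ℝ) ^ (-β) * (1 - (n : ℝ) / x) *
          (((ArithmeticFunction.zeta : ArithmeticFunction ℕ) : ArithmeticFunction ℝ) * g) n := by
      intro n hn
      rw [ArithmeticFunction.mul_apply, Finset.mul_sum]
      refine Finset.sum_congr rfl fun p hp => ?_
      obtain ⟨p1, p2⟩ := Nat.mem_divisorsAntidiagonal.1 hp
      have p3 : (n : ℝ) = p.1 * p.2 := by rw [← p1]; push_cast; ring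
      have p4 : p.1 ≠ 0 := by
        rintro h
        rw [h, zero_mul] at p1
        exact p2 p1.symm
      rw [ArithmeticFunction.natCoe_apply, ArithmeticFunction.zeta_apply, if_neg p4, ← p3]
      push_cast
      ring
    rw [Finset.sum_congr rfl h1]
    have hone : 1 ∈ Finset.Icc 1 ⌊x⌋₊ := by
      rw [Finset.mem_Icc]
      exact ⟨le_rfl, (Nat.one_le_floor_iff _).mpr hx1⟩
    refine le_trans ?_ (Finset.single_le_sum (fun n hn => ?_) hone)
    · have e1 : (((ArithmeticFunction.zeta : ArithmeticFunction ℕ) : ArithmeticFunction ℝ) * g) 1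
          = 1 := by
        rw [ArithmeticFunction.mul_apply, Nat.divisorsAntidiagonal_one, Finset.sum_singleton,
          ArithmeticFunction.natCoe_apply, ArithmeticFunction.zeta_apply, g1]
        simp
      rw [e1]
      push_cast
      rw [Real.one_rpow, one_mul, mul_one]
      have : 1 / x ≤ 1 / 2 := one_div_le_one_div_of_le (by norm_num) hx2
      linarith
    · rw [Finset.mem_Icc] at hn
      have hnx : (n : ℝ) ≤ x := (Nat.le_floor_iff hx0.le).1 hn.2
      have e1 : 0 ≤ 1 - (n : ℝ) / x := by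
        rw [sub_nonneg, div_le_one hx0]
        exact hnx
      exact mul_nonneg (mul_nonneg (Real.rpow_nonneg (Nat.cast_nonneg _) _) e1) (hr n)
  rw [hsum] at hlow
  -- the integrals
  have hi1 : IntegrableOn (fun t => G g t * t ^ (-1 - 1 : ℝ)) (Ioi 1) :=
    int_rpow hg hA0 (by norm_num)
  have hiβ : IntegrableOn (fun t => G g t * t ^ (-β - 1)) (Ioi 1) :=
    int_rpow hg hA0 (by linarith)
  have hP1 : Pf g 1 = ∫ t in Ioi 1, G g t * t ^ (-1 - 1 : ℝ) := by
    unfold Pf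
    rw [one_mul]
    rfl
  have hPβ : Pf g β = β * ∫ t in Ioi 1, G g t * t ^ (-β - 1) := rfl
  obtain ⟨H, hH⟩ : ∃ H : ℝ → ℝ, H = fun t => G g t * (t ^ (-β - 1) * W β (x / t)) -
    (c * x ^ (1 - β) * (G g t * t ^ (-1 - 1 : ℝ)) + β * κ * (G g t * t ^ (-β - 1))) := ⟨_, rfl⟩
  have hHint : IntegrableOn H (Ioi 1) := by
    rw [hH]
    exact hint.sub ((hi1.const_mul _).add (hiβ.const_mul _))
  have hj1 : IntegrableOn (fun t => c * x ^ (1 - β) * (G g t * t ^ (-1 - 1 : ℝ))) (Ioi 1) :=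
    hi1.const_mul _
  have hj2 : IntegrableOn (fun t => β * κ * (G g t * t ^ (-β - 1))) (Ioi 1) := hiβ.const_mul _
  have hj3 : IntegrableOn (fun t => c * x ^ (1 - β) * (G g t * t ^ (-1 - 1 : ℝ)) +
      β * κ * (G g t * t ^ (-β - 1))) (Ioi 1) := hj1.add hj2
  have hHI : ∫ t in Ioi 1, H t = (∫ t in Ioi 1, G g t * (t ^ (-β - 1) * W β (x / t))) -
      (c * x ^ (1 - β) * Pf g 1 + κ * Pf g β) := by
    rw [hH]
    show ∫ t in Ioi 1, (G g t * (t ^ (-β - 1) * W β (x / t)) -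
      (c * x ^ (1 - β) * (G g t * t ^ (-1 - 1 : ℝ)) + β * κ * (G g t * t ^ (-β - 1)))) = _
    rw [integral_sub hint hj3, integral_add hj1 hj2, integral_const_mul, integral_const_mul,
      hP1, hPβ]
    ring
  have hHt : ∀ t : ℝ, 0 < t → H t = G g t * (t ^ (-β - 1) *
      (W β (x / t) - (c * (x / t) ^ (1 - β) + β * κ))) := by
    intro t ht
    rw [hH]
    simp only
    have e1 : t ^ (-1 - 1 : ℝ) = t ^ (-β - 1) * (t ^ (1 - β))⁻¹ := by
      rw [← Real.rpow_neg ht.le, ← Real.rpow_add ht]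
      congr 1
      ring
    rw [Real.div_rpow hx0.le ht.le, e1]
    field_simp
  have herr := err (C := C) hβ hβ1 hx1 hA0 hC0 hHint (by
      intro t ht1 ht2
      have ht0 : 0 < t := by linarith
      rw [hHt t ht0, abs_mul, abs_mul, abs_of_nonneg (Real.rpow_nonneg ht0.le (-β - 1))]
      have e1 := hW (x / t) (by rw [one_le_div ht0]; exact ht2)
      have e2 := G_bound hg hA0 ht0.le
      have e3 : (x / t) ^ (-β) = x ^ (-β) * t ^ β := by
        rw [Real.div_rpow hx0.le ht0.le, Real.rpow_neg ht0.le, div_inv_eq_mul]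
      calc |G g t| * (t ^ (-β - 1) * |W β (x / t) - (c * (x / t) ^ (1 - β) + β * κ)|)
          ≤ (A * t ^ (3 / 4 : ℝ)) * (t ^ (-β - 1) * (2 * (x / t) ^ (-β))) := by
            gcongr
        _ = 2 * A * x ^ (-β) * (t ^ (3 / 4 : ℝ) * t ^ (-β - 1) * t ^ β) := by
            rw [e3]
            ring
        _ = 2 * A * x ^ (-β) * t ^ (-(1 / 4) : ℝ) := by
            rw [← Real.rpow_add ht0, ← Real.rpow_add ht0]
            congr 2
            ring) (by
      intro t ht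
      have ht0 : 0 < t := by linarith
      rw [hHt t ht0, abs_mul, abs_mul, abs_of_nonneg (Real.rpow_nonneg ht0.le (-β - 1))]
      have hxt : x / t < 1 := by
        rw [div_lt_one ht0]
        exact ht
      have hxt0 : 0 < x / t := by positivity
      rw [W_zero hxt, zero_sub, abs_neg]
      have e1 : |c * (x / t) ^ (1 - β) + β * κ| ≤ C := by
        rw [hC]
        refine (abs_add_le _ _).trans ?_
        refine add_le_add ?_ le_rfl
        rw [abs_of_nonneg (by positivity)]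
        refine mul_le_of_le_one_right hc0.le ?_
        exact Real.rpow_le_one hxt0.le hxt.le hp.le
      have e2 := G_bound hg hA0 ht0.le
      calc |G g t| * (t ^ (-β - 1) * |c * (x / t) ^ (1 - β) + β * κ|)
          ≤ (A * t ^ (3 / 4 : ℝ)) * (t ^ (-β - 1) * C) := by
            gcongr
        _ = A * C * (t ^ (3 / 4 : ℝ) * t ^ (-β - 1)) := by ring
        _ = A * C * t ^ (-(1 / 4) - β : ℝ) := by
            rw [← Real.rpow_add ht0]
            congr 2
            ring)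
  rw [hHI, ← hC'] at herr
  have herr2 := (abs_le.1 herr).2
  -- the error is at most 1/4
  have hq4 : A * C' * x ^ (3 / 4 - β) ≤ 1 / 4 := by
    have e1 : x ^ (3 / 4 - β) ≤ x ^ (-(1 / 8) : ℝ) :=
      Real.rpow_le_rpow_of_exponent_le hx1 (by linarith)
    have e2 : x ^ (-(1 / 8) : ℝ) = (4 * C' * A)⁻¹ := by
      rw [hx, ← Real.rpow_mul hCA0.le, ← Real.rpow_neg_one]
      norm_num
    calc A * C' * x ^ (3 / 4 - β) ≤ A * C' * x ^ (-(1 / 8) : ℝ) :=
          mul_le_mul_of_nonneg_left e1 (by positivity)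
      _ = 1 / 4 := by
          rw [e2]
          have : A ≠ 0 := by linarith
          have : C' ≠ 0 := by linarith
          field_simp
  have hκP : κ * Pf g β ≤ 0 := mul_nonpos_of_nonpos_of_nonneg hκ hPf
  have hmain : 1 / 4 ≤ c * x ^ (1 - β) * Pf g 1 := by linarith
  have hxp : 0 < x ^ (1 - β) := Real.rpow_pos_of_pos hx0 _
  have hfin : 1 / (4 * c) * (x ^ (1 - β))⁻¹ ≤ Pf g 1 := by
    rw [← div_eq_mul_inv, div_div, div_le_iff₀ (by positivity)]
    linarith
  refine le_trans (le_of_eq ?_) hfin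
  rw [hx, ← Real.rpow_neg (by positivity), ← Real.rpow_mul hCA0.le, mul_assoc,
    ← Real.mul_rpow (by positivity) hA0]
  congr 2
  ring

end Pool.Agent.H90.VT.SGB
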