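import Mathlib

/-!
# Power sums (theorem (V), row SGB)
-/

set_option autoImplicit false

open MeasureTheory Set

namespace Pool.Agent.H90.VT.SGB

theorem bern_up {p a b : ℝ} (hp0 : 0 ≤ p) (hp1 : p ≤ 1) (ha : 0 < a) (hb : 0 ≤ b) :
    b ^ p ≤ a ^ p + p * a ^ (p - 1) * (b - a) := by
  have hs : -1 ≤ (b - a) / a := by
    rw [le_div_iff₀ ha]
    linarith
  have h1 := rpow_one_add_le_one_add_mul_self hs hp0 hp1
  have h2 : 1 + (b - a) / a = b / a := by field_simp; ring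
  rw [h2, Real.div_rpow hb ha.le] at h1
  have hap : 0 < a ^ p := Real.rpow_pos_of_pos ha p
  rw [div_le_iff₀ hap] at h1
  have h3 : a ^ (p - 1) = a ^ p / a := by rw [Real.rpow_sub_one ha.ne']
  rw [h3]
  refine h1.trans (le_of_eq ?_)
  field_simp

theorem bern_lo {q a b : ℝ} (hq : 1 ≤ q) (ha : 0 < a) (hb : 0 ≤ b) :
    a ^ q + q * a ^ (q - 1) * (b - a) ≤ b ^ q := by
  have hs : -1 ≤ (b - a) / a := by
    rw [le_div_iff₀ ha]
    linarith
  have h1 := one_add_mul_self_le_rpow_one_add hs hq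
  have h2 : 1 + (b - a) / a = b / a := by field_simp; ring
  rw [h2, Real.div_rpow hb ha.le] at h1
  have hap : 0 < a ^ q := Real.rpow_pos_of_pos ha q
  rw [le_div_iff₀ hap] at h1
  have h3 : a ^ (q - 1) = a ^ q / a := by rw [Real.rpow_sub_one ha.ne']
  rw [h3]
  refine le_trans (le_of_eq ?_) h1
  field_simp

noncomputable def s1 (β : ℝ) (N : ℕ) : ℝ := ∑ m ∈ Finset.Icc 1 N, (m : ℝ) ^ (-β)

noncomputable def s2 (β : ℝ) (N : ℕ) : ℝ := ∑ m ∈ Finset.Icc 1 N, (m : ℝ) ^ (1 - β)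

theorem s1_succ (β : ℝ) (N : ℕ) : s1 β (N + 1) = s1 β N + ((N : ℝ) + 1) ^ (-β) := by
  unfold s1
  rw [Finset.sum_Icc_succ_top (by omega)]
  push_cast
  rfl

theorem s2_succ (β : ℝ) (N : ℕ) : s2 β (N + 1) = s2 β N + ((N : ℝ) + 1) ^ (1 - β) := by
  unfold s2
  rw [Finset.sum_Icc_succ_top (by omega)]
  push_cast
  rfl

/-- the constant -/
theorem exists_kappa {β : ℝ} (h0 : 0 < β) (h1 : β < 1) : ∃ κ : ℝ, κ ≤ 0 ∧ ∀ N : ℕ, 1 ≤ N →
    κ ≤ s1 β N - (N : ℝ) ^ (1 - β) / (1 - β) ∧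
    s1 β N - (N : ℝ) ^ (1 - β) / (1 - β) ≤ κ + (N : ℝ) ^ (-β) := by
  have hp : 0 < 1 - β := by linarith
  set a : ℕ → ℝ := fun N => s1 β N - (N : ℝ) ^ (1 - β) / (1 - β) with ha
  set b : ℕ → ℝ := fun N => a N - (N : ℝ) ^ (-β) with hb
  have hstep : ∀ N : ℕ, 1 ≤ N → a (N + 1) ≤ a N ∧ b N ≤ b (N + 1) := by
    intro N hN
    have hN0 : (0 : ℝ) < N := by exact_mod_cast hN
    have e1 := bern_up hp.le (by linarith : 1 - β ≤ 1) hN0 (by linarith : (0 : ℝ) ≤ (N : ℝ) + 1)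
    have e2 := bern_up hp.le (by linarith : 1 - β ≤ 1) (by linarith : (0 : ℝ) < (N : ℝ) + 1) hN0.le
    have e3 : 1 - β - 1 = -β := by ring
    rw [e3] at e1 e2
    have e4 : (((N : ℝ) + 1) ^ (1 - β) - (N : ℝ) ^ (1 - β)) / (1 - β) ≤ (N : ℝ) ^ (-β) := by
      rw [div_le_iff₀ hp]
      linarith
    have e5 : ((N : ℝ) + 1) ^ (-β) ≤
        (((N : ℝ) + 1) ^ (1 - β) - (N : ℝ) ^ (1 - β)) / (1 - β) := by
      rw [le_div_iff₀ hp]
      linarith
    rw [sub_div] at e4 e5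
    constructor
    · rw [ha]
      simp only [s1_succ]
      push_cast
      linarith
    · rw [hb, ha]
      simp only [s1_succ]
      push_cast
      linarith
  have hamono : ∀ M N : ℕ, 1 ≤ M → M ≤ N → a N ≤ a M := by
    intro M N hM hMN
    induction N, hMN using Nat.le_induction with
    | base => exact le_rfl
    | succ N hN ih => exact ((hstep N (hM.trans hN)).1).trans ih
  have hbmono : ∀ M N : ℕ, 1 ≤ M → M ≤ N → b M ≤ b N := by
    intro M N hM hMN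
    induction N, hMN using Nat.le_induction with
    | base => exact le_rfl
    | succ N hN ih => exact ih.trans ((hstep N (hM.trans hN)).2)
  have hba : ∀ N : ℕ, b N ≤ a N := by
    intro N
    rw [hb]
    have : 0 ≤ (N : ℝ) ^ (-β) := Real.rpow_nonneg (Nat.cast_nonneg _) _
    simp only
    linarith
  have hle : ∀ M N : ℕ, 1 ≤ M → 1 ≤ N → b M ≤ a N := by
    intro M N hM hN
    exact (hbmono M (max M N) hM (le_max_left _ _)).trans
      ((hba _).trans (hamono N (max M N) hN (le_max_right _ _)))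
  set S : Set ℝ := {x | ∃ N : ℕ, 1 ≤ N ∧ b N = x} with hS
  have hSne : S.Nonempty := ⟨b 1, 1, le_rfl, rfl⟩
  have hSbdd : BddAbove S := ⟨a 1, by rintro x ⟨N, hN, rfl⟩; exact hle N 1 hN le_rfl⟩
  refine ⟨sSup S, ?_, fun N hN => ⟨?_, ?_⟩⟩
  · refine csSup_le hSne ?_
    rintro x ⟨N, hN, rfl⟩
    refine (hle N 1 hN le_rfl).trans ?_
    rw [ha]
    have e1 : s1 β 1 = 1 := by simp [s1]
    simp only [e1, Nat.cast_one, Real.one_rpow]
    rw [sub_nonpos, le_div_iff₀ hp]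
    linarith
  · refine csSup_le hSne ?_
    rintro x ⟨M, hM, rfl⟩
    exact hle M N hM hN
  · have h2 : b N ≤ sSup S := le_csSup hSbdd ⟨N, hN, rfl⟩
    rw [hb] at h2
    simp only at h2
    show a N ≤ _
    linarith

theorem s2_bd {β : ℝ} (h1 : β < 1) (N : ℕ) :
    (N : ℝ) ^ (2 - β) / (2 - β) ≤ s2 β N ∧
    s2 β N ≤ (N : ℝ) ^ (2 - β) / (2 - β) + (N : ℝ) ^ (1 - β) := by
  have hq : 1 ≤ 2 - β := by linarith
  have hq0 : 0 < 2 - β := by linarith
  have e0 : 2 - β - 1 = 1 - β := by ring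
  induction N with
  | zero =>
    simp only [s2, Nat.cast_zero]
    rw [Real.zero_rpow (by linarith), Real.zero_rpow (by linarith)]
    simp
  | succ N ih =>
    obtain ⟨i1, i2⟩ := ih
    have hN1 : (0 : ℝ) < (N : ℝ) + 1 := by positivity
    have e1 := bern_lo hq hN1 (Nat.cast_nonneg N : (0 : ℝ) ≤ N)
    rw [e0] at e1
    have e2 : (N : ℝ) ^ (2 - β) + (2 - β) * (N : ℝ) ^ (1 - β) ≤ ((N : ℝ) + 1) ^ (2 - β) := by
      rcases Nat.eq_zero_or_pos N with h | h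
      · rw [h]
        simp only [Nat.cast_zero]
        rw [Real.zero_rpow (by linarith), Real.zero_rpow (by linarith)]
        norm_num
      · have hN0 : (0 : ℝ) < N := by exact_mod_cast h
        have := bern_lo hq hN0 hN1.le
        rw [e0] at this
        linarith
    rw [s2_succ]
    push_cast
    constructor
    · have e3 : ((N : ℝ) + 1) ^ (2 - β) / (2 - β) ≤
          (N : ℝ) ^ (2 - β) / (2 - β) + ((N : ℝ) + 1) ^ (1 - β) := by
        rw [div_add' _ _ _ hq0.ne', div_le_div_iff_of_pos_right hq0]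
        linarith
      linarith
    · have e3 : (N : ℝ) ^ (2 - β) / (2 - β) + (N : ℝ) ^ (1 - β) ≤
          ((N : ℝ) + 1) ^ (2 - β) / (2 - β) := by
        rw [div_add' _ _ _ hq0.ne', div_le_div_iff_of_pos_right hq0]
        linarith
      linarith

/-- the kernel -/
noncomputable def W (β y : ℝ) : ℝ := β * s1 β ⌊y⌋₊ + (1 - β) * (s2 β ⌊y⌋₊ / y)

theorem W_zero {β y : ℝ} (hy : y < 1) : W β y = 0 := by
  have h : ⌊y⌋₊ = 0 := Nat.floor_eq_zero.mpr hy
  unfold W s1 s2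
  rw [h]
  simp

theorem W_asym {β : ℝ} (h0 : 0 < β) (h1 : β < 1) : ∃ κ : ℝ, κ ≤ 0 ∧ ∀ y : ℝ, 1 ≤ y →
    |W β y - (1 / ((1 - β) * (2 - β)) * y ^ (1 - β) + β * κ)| ≤ 2 * y ^ (-β) := by
  obtain ⟨κ, hκ, hN⟩ := exists_kappa h0 h1
  refine ⟨κ, hκ, fun y hy => ?_⟩
  have hp : 0 < 1 - β := by linarith
  have hq : 1 ≤ 2 - β := by linarith
  have hq0 : 0 < 2 - β := by linarith
  have hy0 : 0 < y := by linarith
  obtain ⟨N, hNy⟩ : ∃ N : ℕ, N = ⌊y⌋₊ := ⟨_, rfl⟩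
  have hN1 : 1 ≤ N := by
    rw [hNy]
    exact (Nat.one_le_floor_iff _).mpr hy
  have hNr : (1 : ℝ) ≤ N := by exact_mod_cast hN1
  have hN0 : (0 : ℝ) < N := by linarith
  have hNle : (N : ℝ) ≤ y := by
    rw [hNy]
    exact Nat.floor_le hy0.le
  have hNlt : y < N + 1 := by
    rw [hNy]
    exact Nat.lt_floor_add_one y
  obtain ⟨k1, k2⟩ := hN N hN1
  obtain ⟨l1, l2⟩ := s2_bd h1 N
  -- comparison of N and y
  have a1 : (N : ℝ) ^ (1 - β) ≤ y ^ (1 - β) := Real.rpow_le_rpow hN0.le hNle hp.le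
  have a2 : y ^ (1 - β) ≤ (N : ℝ) ^ (1 - β) + (1 - β) * (N : ℝ) ^ (-β) := by
    have := bern_up hp.le (by linarith : 1 - β ≤ 1) hN0 hy0.le
    rw [show 1 - β - 1 = -β by ring] at this
    have hnn : 0 ≤ (1 - β) * (N : ℝ) ^ (-β) := by positivity
    have : (1 - β) * (N : ℝ) ^ (-β) * (y - N) ≤ (1 - β) * (N : ℝ) ^ (-β) * 1 :=
      mul_le_mul_of_nonneg_left (by linarith) hnn
    linarith
  have a3 : (N : ℝ) ^ (-β) ≤ 2 * y ^ (-β) := by
    have e1 : y / 2 ≤ N := by linarith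
    have e2 : (N : ℝ) ^ (-β) ≤ (y / 2) ^ (-β) :=
      Real.rpow_le_rpow_of_nonpos (by positivity) e1 (by linarith)
    rw [Real.div_rpow hy0.le (by norm_num), Real.rpow_neg (by norm_num : (0 : ℝ) ≤ 2),
      div_inv_eq_mul] at e2
    have e3 : (2 : ℝ) ^ β ≤ 2 := by
      calc (2 : ℝ) ^ β ≤ (2 : ℝ) ^ (1 : ℝ) :=
            Real.rpow_le_rpow_of_exponent_le (by norm_num) h1.le
        _ = 2 := Real.rpow_one _
    have e4 : 0 ≤ y ^ (-β) := by positivity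
    calc (N : ℝ) ^ (-β) ≤ y ^ (-β) * (2 : ℝ) ^ β := e2
      _ ≤ y ^ (-β) * 2 := mul_le_mul_of_nonneg_left e3 e4
      _ = _ := by ring
  have b1 : (N : ℝ) ^ (2 - β) ≤ y ^ (2 - β) := Real.rpow_le_rpow hN0.le hNle hq0.le
  have b2 : y ^ (2 - β) ≤ (N : ℝ) ^ (2 - β) + (2 - β) * y ^ (1 - β) := by
    have := bern_lo hq hy0 hN0.le
    rw [show 2 - β - 1 = 1 - β by ring] at this
    have hnn : 0 ≤ (2 - β) * y ^ (1 - β) := by positivity
    have : (2 - β) * y ^ (1 - β) * (y - N) ≤ (2 - β) * y ^ (1 - β) * 1 :=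
      mul_le_mul_of_nonneg_left (by linarith) hnn
    linarith
  -- the two sums
  have hs1 : |s1 β N - (y ^ (1 - β) / (1 - β) + κ)| ≤ 2 * y ^ (-β) := by
    have c1 : y ^ (1 - β) / (1 - β) ≤ (N : ℝ) ^ (1 - β) / (1 - β) + (N : ℝ) ^ (-β) := by
      rw [div_add' _ _ _ hp.ne', div_le_div_iff_of_pos_right hp]
      linarith
    have c2 : (N : ℝ) ^ (1 - β) / (1 - β) ≤ y ^ (1 - β) / (1 - β) := by
      rw [div_le_div_iff_of_pos_right hp]
      exact a1
    rw [abs_le]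
    constructor <;> linarith
  have hs2 : |s2 β N - y ^ (2 - β) / (2 - β)| ≤ y ^ (1 - β) := by
    have c1 : y ^ (2 - β) / (2 - β) ≤ (N : ℝ) ^ (2 - β) / (2 - β) + y ^ (1 - β) := by
      rw [div_add' _ _ _ hq0.ne', div_le_div_iff_of_pos_right hq0]
      linarith
    have c2 : (N : ℝ) ^ (2 - β) / (2 - β) ≤ y ^ (2 - β) / (2 - β) := by
      rw [div_le_div_iff_of_pos_right hq0]
      exact b1
    rw [abs_le]
    constructor <;> linarith
  have hy2 : y ^ (2 - β) = y ^ (1 - β) * y := by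
    rw [← Real.rpow_add_one hy0.ne']
    congr 1
    ring
  have hy1 : y ^ (1 - β) = y ^ (-β) * y := by
    rw [← Real.rpow_add_one hy0.ne']
    congr 1
    ring
  have hs2' : |s2 β N / y - y ^ (1 - β) / (2 - β)| ≤ y ^ (-β) := by
    have e1 : s2 β N / y - y ^ (1 - β) / (2 - β) = (s2 β N - y ^ (2 - β) / (2 - β)) / y := by
      rw [hy2]
      field_simp
    rw [e1, abs_div, abs_of_pos hy0, div_le_iff₀ hy0, ← hy1]
    exact hs2
  have hfin : W β y - (1 / ((1 - β) * (2 - β)) * y ^ (1 - β) + β * κ) =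
      β * (s1 β N - (y ^ (1 - β) / (1 - β) + κ)) +
      (1 - β) * (s2 β N / y - y ^ (1 - β) / (2 - β)) := by
    unfold W
    rw [← hNy]
    field_simp
    ring
  rw [hfin]
  have hyb : 0 ≤ y ^ (-β) := by positivity
  calc |β * (s1 β N - (y ^ (1 - β) / (1 - β) + κ)) +
        (1 - β) * (s2 β N / y - y ^ (1 - β) / (2 - β))|
      ≤ |β * (s1 β N - (y ^ (1 - β) / (1 - β) + κ))| +
        |(1 - β) * (s2 β N / y - y ^ (1 - β) / (2 - β))| := abs_add_le _ _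
    _ = β * |s1 β N - (y ^ (1 - β) / (1 - β) + κ)| +
        (1 - β) * |s2 β N / y - y ^ (1 - β) / (2 - β)| := by
        rw [abs_mul, abs_mul, abs_of_pos h0, abs_of_pos hp]
    _ ≤ β * (2 * y ^ (-β)) + (1 - β) * (y ^ (-β)) := by gcongr
    _ ≤ 2 * y ^ (-β) := by nlinarith

end Pool.Agent.H90.VT.SGB
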